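import Pool.Agent.Helper28.NF.Stmts

/-!
# Dimension free Beck-Fiala, module 4: integration over scales
-/

namespace Pool.Agent.Helper60.NF

open Finset MeasureTheory Filter Topology Pool.Agent.Helper28.NF
open scoped Classical

noncomputable section

/-- primitive of `x ^ 2 / (h ^ 2 + x ^ 2)` -/
def AA (x h : ℝ) : ℝ := |x| * Real.arctan (h / |x|)

theorem AA_deriv (x h : ℝ) : HasDerivAt (AA x) (x ^ 2 / (h ^ 2 + x ^ 2)) h := by
  by_cases hx : x = 0
  · subst hx
    have : AA 0 = fun _ => (0 : ℝ) := by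
      funext h
      simp [AA]
    rw [this]
    simpa using hasDerivAt_const h (0 : ℝ)
  · have hx' : |x| ≠ 0 := by simpa using hx
    have h1 : HasDerivAt (fun h : ℝ => h / |x|) (1 / |x|) h := by
      simpa using (hasDerivAt_id h).div_const |x|
    have h2 := (h1.arctan).const_mul |x|
    have h3 : |x| * (1 / (1 + (h / |x|) ^ 2) * (1 / |x|)) = x ^ 2 / (h ^ 2 + x ^ 2) := by
      have hs : |x| ^ 2 = x ^ 2 := sq_abs x
      have hp : 0 < x ^ 2 := by positivity
      have hq : 0 < h ^ 2 + x ^ 2 := by positivity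
      rw [div_pow, hs]
      field_simp
      ring
    rw [← h3]
    exact h2

theorem AA_top (x : ℝ) : Tendsto (AA x) atTop (𝓝 (|x| * (Real.pi / 2))) := by
  by_cases hx : x = 0
  · subst hx
    have : AA 0 = fun _ => (0 : ℝ) := by
      funext h
      simp [AA]
    rw [this]
    simp
  · have hx' : 0 < |x| := by positivity
    unfold AA
    apply Tendsto.const_mul
    have h1 : Tendsto (fun h : ℝ => h / |x|) atTop atTop :=
      tendsto_id.atTop_div_const hx'
    exact (tendsto_nhds_of_tendsto_nhdsWithin Real.tendsto_arctan_atTop).comp h1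

theorem AA_zero (x : ℝ) : Tendsto (AA x) (𝓝[>] 0) (𝓝 0) := by
  have h1 : Continuous (AA x) := by
    unfold AA
    exact continuous_const.mul (Real.continuous_arctan.comp (continuous_id.div_const _))
  have h2 : AA x 0 = 0 := by simp [AA]
  have h3 := h1.tendsto 0
  rw [h2] at h3
  exact h3.mono_left nhdsWithin_le_nhds

/-- primitive of `log (1 + c / h ^ 2)` without the arctangent -/
def LB (c h : ℝ) : ℝ := h * Real.log (1 + c / h ^ 2)

theorem LB_deriv (c h : ℝ) (hc : 0 ≤ c) (hh : 0 < h) :
    HasDerivAt (LB c) (Real.log (1 + c / h ^ 2) - 2 * (c / (h ^ 2 + c))) h := by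
  have hp : 0 < h ^ 2 := by positivity
  have h0 : (1 + c / h ^ 2) ≠ 0 := by positivity
  have hq : 0 < h ^ 2 + c := by positivity
  have h1 : HasDerivAt (fun h : ℝ => 1 + c / h ^ 2) (-(2 * c / h ^ 3)) h := by
    have h2 : HasDerivAt (fun h : ℝ => h ^ 2) (2 * h) h := by
      simpa using hasDerivAt_pow 2 h
    have h3 := ((hasDerivAt_const h c).div h2 hp.ne').const_add 1
    have h4 : (0 * h ^ 2 - c * (2 * h)) / (h ^ 2) ^ 2 = -(2 * c / h ^ 3) := by
      field_simp
      ring
    rw [← h4]
    exact h3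
  have h5 := (hasDerivAt_id h).mul (h1.log h0)
  have h6 : 1 * Real.log (1 + c / h ^ 2) + id h * (-(2 * c / h ^ 3) / (1 + c / h ^ 2))
      = Real.log (1 + c / h ^ 2) - 2 * (c / (h ^ 2 + c)) := by
    have h7 : id h * (-(2 * c / h ^ 3) / (1 + c / h ^ 2)) = - (2 * (c / (h ^ 2 + c))) := by
      simp only [id]
      field_simp
    rw [h7]
    ring
  rw [← h6]
  exact h5

theorem LB_top (c : ℝ) (hc : 0 ≤ c) : Tendsto (LB c) atTop (𝓝 0) := by
  have h1 : Tendsto (fun h : ℝ => c / h) atTop (𝓝 0) := tendsto_const_nhds.div_atTop tendsto_id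
  refine squeeze_zero' ?_ ?_ h1
  · filter_upwards [eventually_gt_atTop 0] with h hh
    unfold LB
    have : 0 ≤ Real.log (1 + c / h ^ 2) := Real.log_nonneg (by
      have : 0 ≤ c / h ^ 2 := by positivity
      linarith)
    positivity
  · filter_upwards [eventually_gt_atTop 0] with h hh
    unfold LB
    have h2 : Real.log (1 + c / h ^ 2) ≤ c / h ^ 2 := by
      have := Real.log_le_sub_one_of_pos (show 0 < 1 + c / h ^ 2 by positivity)
      linarith
    calc h * Real.log (1 + c / h ^ 2) ≤ h * (c / h ^ 2) := mul_le_mul_of_nonneg_left h2 hh.le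
      _ = c / h := by field_simp

theorem LB_zero (c : ℝ) (hc : 0 ≤ c) : Tendsto (LB c) (𝓝[>] 0) (𝓝 0) := by
  rcases hc.eq_or_lt with h0 | h0
  · subst h0
    have : LB 0 = fun _ => (0 : ℝ) := by
      funext h
      simp [LB]
    rw [this]
    exact tendsto_const_nhds
  · have h1 : Continuous (fun h : ℝ => h * Real.log (h ^ 2 + c) - 2 * (h * Real.log h)) := by
      apply Continuous.sub
      · apply continuous_id.mul
        apply Continuous.log
        · fun_prop
        · intro h
          positivity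
      · exact continuous_const.mul Real.continuous_mul_log
    have h2 := h1.tendsto 0
    simp only [ne_eq, OfNat.ofNat_ne_zero, not_false_eq_true, zero_pow, zero_add, zero_mul,
      mul_zero, sub_zero] at h2
    refine (h2.mono_left nhdsWithin_le_nhds).congr' ?_
    filter_upwards [self_mem_nhdsWithin] with h hh
    have hh' : 0 < h := hh
    unfold LB
    have h3 : 1 + c / h ^ 2 = (h ^ 2 + c) / h ^ 2 := by
      field_simp
    rw [h3, Real.log_div (by positivity) (by positivity), Real.log_pow]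
    push_cast
    ring

theorem Ph_div (x h : ℝ) (hh : 0 < h) : Ph (x / h) = x ^ 2 / (h ^ 2 + x ^ 2) := by
  unfold Ph
  have h1 : 0 < h ^ 2 + x ^ 2 := by positivity
  have h2 : 0 < 1 + (x / h) ^ 2 := by positivity
  rw [div_eq_div_iff h2.ne' h1.ne']
  field_simp

theorem fv_div {ι κ : Type} [Fintype ι] [Fintype κ] (S : κ → Finset ι) (y : κ → ℝ) (h : ℝ) (v : ι) :
    fv S (fun j => y j / h) v = fv S y v / h := by
  unfold fv
  rw [Finset.sum_div]
  apply Finset.sum_congr rfl
  intro j _
  split_ifs <;> simp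

theorem st_scale : ST_SCALE := by
  intro ι κ _ _ S L p q hL hp hq H y
  set x : ι → ℝ := fun v => fv S y v with hx
  set c : κ → ℝ := fun j => L j * y j ^ 2 with hc
  have hc0 : ∀ j, 0 ≤ c j := fun j => mul_nonneg (hL j).le (sq_nonneg _)
  set Ψ : ℝ → ℝ := fun h => ∑ v, q v * AA (x v) h
    + 2 * ∑ j, (LB (c j) h + 2 * AA (Real.sqrt (c j)) h) - ∑ u, p u * AA (x u) h with hΨ
  have hder : ∀ h : ℝ, 0 < h → HasDerivAt Ψ
      (∑ v, q v * (x v ^ 2 / (h ^ 2 + x v ^ 2)) + 2 * ∑ j, Real.log (1 + c j / h ^ 2)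
        - ∑ u, p u * (x u ^ 2 / (h ^ 2 + x u ^ 2))) h := by
    intro h hh
    have h1 : HasDerivAt (fun h => ∑ v, q v * AA (x v) h)
        (∑ v, q v * (x v ^ 2 / (h ^ 2 + x v ^ 2))) h := by
      apply HasDerivAt.fun_sum
      intro v _
      exact (AA_deriv (x v) h).const_mul (q v)
    have h2 : HasDerivAt (fun h => ∑ u, p u * AA (x u) h)
        (∑ u, p u * (x u ^ 2 / (h ^ 2 + x u ^ 2))) h := by
      apply HasDerivAt.fun_sum
      intro v _
      exact (AA_deriv (x v) h).const_mul (p v)
    have h3 : HasDerivAt (fun h => ∑ j, (LB (c j) h + 2 * AA (Real.sqrt (c j)) h))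
        (∑ j, Real.log (1 + c j / h ^ 2)) h := by
      apply HasDerivAt.fun_sum
      intro j _
      have h4 := (LB_deriv (c j) h (hc0 j) hh).add ((AA_deriv (Real.sqrt (c j)) h).const_mul 2)
      rw [Real.sq_sqrt (hc0 j)] at h4
      have h5 : Real.log (1 + c j / h ^ 2) - 2 * (c j / (h ^ 2 + c j))
          + 2 * (c j / (h ^ 2 + c j)) = Real.log (1 + c j / h ^ 2) := by ring
      rw [h5] at h4
      exact h4
    exact (h1.add (h3.const_mul 2)).sub h2
  have hmono : MonotoneOn Ψ (Set.Ioi 0) := by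
    apply monotoneOn_of_deriv_nonneg (convex_Ioi 0)
    · intro h hh
      exact (hder h hh).continuousAt.continuousWithinAt
    · intro h hh
      rw [interior_Ioi] at hh
      exact (hder h hh).differentiableAt.differentiableWithinAt
    · intro h hh
      rw [interior_Ioi] at hh
      have hh' : 0 < h := hh
      rw [(hder h hh).deriv]
      have h1 := H (fun j => y j / h)
      have h2 : ∀ v, Ph (fv S (fun j => y j / h) v) = x v ^ 2 / (h ^ 2 + x v ^ 2) := by
        intro v
        rw [fv_div, Ph_div _ _ hh']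
      have h3 : ∀ j, L j * (y j / h) ^ 2 = c j / h ^ 2 := by
        intro j
        simp only [hc]
        field_simp
      simp only [h2, h3] at h1
      linarith
  have htop : Tendsto Ψ atTop (𝓝 (∑ v, q v * (|x v| * (Real.pi / 2))
      + 2 * ∑ j, (0 + 2 * (|Real.sqrt (c j)| * (Real.pi / 2)))
      - ∑ u, p u * (|x u| * (Real.pi / 2)))) := by
    apply Tendsto.sub
    · apply Tendsto.add
      · apply tendsto_finset_sum
        intro v _
        exact (AA_top (x v)).const_mul (q v)
      · apply Tendsto.const_mul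
        apply tendsto_finset_sum
        intro j _
        exact (LB_top (c j) (hc0 j)).add ((AA_top (Real.sqrt (c j))).const_mul 2)
    · apply tendsto_finset_sum
      intro v _
      exact (AA_top (x v)).const_mul (p v)
  have hzero : Tendsto Ψ (𝓝[>] 0) (𝓝 (∑ v : ι, q v * 0
      + 2 * ∑ j : κ, (0 + 2 * (0 : ℝ)) - ∑ u : ι, p u * 0)) := by
    apply Tendsto.sub
    · apply Tendsto.add
      · apply tendsto_finset_sum
        intro v _
        exact (AA_zero (x v)).const_mul (q v)
      · apply Tendsto.const_mul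
        apply tendsto_finset_sum
        intro j _
        exact (LB_zero (c j) (hc0 j)).add ((AA_zero (Real.sqrt (c j))).const_mul 2)
    · apply tendsto_finset_sum
      intro v _
      exact (AA_zero (x v)).const_mul (p v)
  have hlim : ∀ h : ℝ, 0 < h → Ψ h ≤ ∑ v, q v * (|x v| * (Real.pi / 2))
      + 2 * ∑ j, (0 + 2 * (|Real.sqrt (c j)| * (Real.pi / 2)))
      - ∑ u, p u * (|x u| * (Real.pi / 2)) := by
    intro h hh
    apply ge_of_tendsto htop
    filter_upwards [eventually_ge_atTop h] with T hT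
    exact hmono hh (lt_of_lt_of_le hh hT) hT
  have hfin := le_of_tendsto hzero (by
    filter_upwards [self_mem_nhdsWithin] with h hh
    exact hlim h hh)
  simp only [mul_zero, Finset.sum_const_zero, add_zero, sub_zero, zero_add] at hfin
  have hsq : ∀ j, |Real.sqrt (c j)| = Real.sqrt (L j) * |y j| := by
    intro j
    rw [abs_of_nonneg (Real.sqrt_nonneg _)]
    simp only [hc]
    rw [Real.sqrt_mul (hL j).le, Real.sqrt_sq_eq_abs]
  simp only [hsq] at hfin
  have e1 : ∑ v, q v * (|x v| * (Real.pi / 2)) = Real.pi / 2 * ∑ v, q v * |x v| := by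
    rw [Finset.mul_sum]
    apply Finset.sum_congr rfl
    intro v _
    ring
  have e2 : ∑ v, p v * (|x v| * (Real.pi / 2)) = Real.pi / 2 * ∑ v, p v * |x v| := by
    rw [Finset.mul_sum]
    apply Finset.sum_congr rfl
    intro v _
    ring
  have e3 : 2 * ∑ j, 2 * (Real.sqrt (L j) * |y j| * (Real.pi / 2))
      = Real.pi / 2 * (4 * ∑ j, Real.sqrt (L j) * |y j|) := by
    rw [Finset.mul_sum, Finset.mul_sum, Finset.mul_sum]
    apply Finset.sum_congr rfl
    intro v _
    ring
  rw [e1, e2, e3] at hfin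
  have hpi : 0 < Real.pi / 2 := by positivity
  have h9 : 0 ≤ Real.pi / 2 * (∑ v, q v * |x v| + 4 * ∑ j, Real.sqrt (L j) * |y j|
      - ∑ v, p v * |x v|) := by
    have : Real.pi / 2 * (∑ v, q v * |x v| + 4 * ∑ j, Real.sqrt (L j) * |y j|
      - ∑ v, p v * |x v|) = Real.pi / 2 * ∑ v, q v * |x v|
        + Real.pi / 2 * (4 * ∑ j, Real.sqrt (L j) * |y j|) - Real.pi / 2 * ∑ v, p v * |x v| := by
      ring
    rw [this]
    exact hfin
  have h10 := nonneg_of_mul_nonneg_right h9 hpi
  linarith

end

end Pool.Agent.Helper60.NF
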