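import Pool.Agent.Helper60.NF.Int

/-!
# Dimension free Beck-Fiala, module 5: changes of the partition function
-/

namespace Pool.Agent.Helper60.NF

open Finset MeasureTheory Filter Topology Pool.Agent.Helper28.NF
open scoped Classical

noncomputable section

theorem zc_mono {ι κ : Type} [Fintype ι] [Fintype κ] (S : κ → Finset ι) (L : κ → ℝ)
    (b b' : ι → ℝ) (hL : ∀ j, 0 < L j) (hb : ∀ v, b v ≤ b' v) : ZZ S L b' ≤ ZZ S L b := by
  unfold ZZ
  apply integral_mono (Pot_int S L b' hL) (Pot_int S L b hL)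
  intro y
  apply Real.exp_le_exp.2
  apply neg_le_neg
  unfold Pot
  have h1 : ∑ v, b v * Ph (fv S y v) ≤ ∑ v, b' v * Ph (fv S y v) := by
    apply Finset.sum_le_sum
    intro v _
    exact mul_le_mul_of_nonneg_right (hb v) (Ph_nonneg _)
  linarith

theorem zc_up {ι κ : Type} [Fintype ι] [Fintype κ] (S : κ → Finset ι) (L : κ → ℝ)
    (b b' : ι → ℝ) (hL : ∀ j, 0 < L j) (hb : ∀ v, b v ≤ b' v) :
    ZZ S L b ≤ Real.exp (∑ v, (b' v - b v)) * ZZ S L b' := by
  unfold ZZ
  rw [← integral_const_mul]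
  apply integral_mono (Pot_int S L b hL) ((Pot_int S L b' hL).const_mul _)
  intro y
  simp only
  rw [← Real.exp_add]
  apply Real.exp_le_exp.2
  unfold Pot
  have h1 : ∑ v, b' v * Ph (fv S y v) - ∑ v, b v * Ph (fv S y v) ≤ ∑ v, (b' v - b v) := by
    rw [← Finset.sum_sub_distrib]
    apply Finset.sum_le_sum
    intro v _
    have h2 := Ph_le_one (fv S y v)
    have h3 := hb v
    nlinarith
  linarith

theorem Ph_quarter (x : ℝ) (hx : 1 / 4 < |x|) : 1 / 17 ≤ Ph x := by
  unfold Ph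
  have h1 : (1 / 4) ^ 2 < x ^ 2 := by
    rw [← sq_abs x]
    exact pow_lt_pow_left₀ hx (by norm_num) (by norm_num)
  rw [div_le_div_iff₀ (by norm_num) (by positivity)]
  nlinarith

theorem num1 : Real.exp (-(1 / 17)) ≤ 578 / 613 := by
  have h1 := Real.quadratic_le_exp_of_nonneg (show (0 : ℝ) ≤ 1 / 17 by norm_num)
  rw [Real.exp_neg]
  have h2 : (613 / 578 : ℝ) ≤ Real.exp (1 / 17) := by
    refine le_trans ?_ h1
    norm_num
  calc (Real.exp (1 / 17))⁻¹ ≤ (613 / 578 : ℝ)⁻¹ := inv_anti₀ (by norm_num) h2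
    _ = 578 / 613 := by norm_num

theorem num2 : 1 - (1 - 578 / 613) / 4 ≤ Real.exp (-(1 / 70)) := by
  have h1 : Real.exp (-(1 / 70)) = Real.exp (-(1 / 140)) ^ 2 := by
    rw [← Real.exp_nat_mul]
    congr 1
    norm_num
  have h2 : 1 - 1 / 140 ≤ Real.exp (-(1 / 140)) := by
    have := Real.add_one_le_exp (-(1 / 140) : ℝ)
    linarith
  rw [h1]
  calc 1 - (1 - 578 / 613) / 4 ≤ (1 - 1 / 140 : ℝ) ^ 2 := by norm_num
    _ ≤ Real.exp (-(1 / 140)) ^ 2 := pow_le_pow_left₀ (by norm_num) h2 2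

theorem zc_gain {ι κ : Type} [Fintype ι] [Fintype κ] (S : κ → Finset ι) (L : κ → ℝ)
    (b : ι → ℝ) (hL : ∀ j, 0 < L j) (u : ι) (hu : b u ≤ 0) (hh : ¬ Happy S L b u) :
    ZZ S L (Function.update b u 1) ≤ Real.exp (-(1 / 70)) * ZZ S L b := by
  have h1 : ZZ S L (Function.update b u 1) ≤ ∫ y : κ → ℝ, (Real.exp (-Pot S L b y)
      - (1 - 578 / 613) * (if 1 / 4 < |fv S y u| then Real.exp (-Pot S L b y) else 0)) := by
    unfold ZZ
    apply integral_mono (Pot_int S L _ hL)
      ((Pot_int S L b hL).sub ((ite_int S L b hL u).const_mul _))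
    intro y
    simp only
    have h2 : Pot S L (Function.update b u 1) y = Pot S L b y + (1 - b u) * Ph (fv S y u) := by
      unfold Pot
      have h3 : ∑ v, Function.update b u 1 v * Ph (fv S y v)
          = ∑ v, b v * Ph (fv S y v) + (1 - b u) * Ph (fv S y u) := by
        rw [← Finset.add_sum_erase _ _ (Finset.mem_univ u),
          ← Finset.add_sum_erase univ (fun v => b v * Ph (fv S y v)) (Finset.mem_univ u)]
        have h4 : ∑ v ∈ univ.erase u, Function.update b u 1 v * Ph (fv S y v)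
            = ∑ v ∈ univ.erase u, b v * Ph (fv S y v) := by
          apply Finset.sum_congr rfl
          intro v hv
          rw [Function.update_of_ne (Finset.ne_of_mem_erase hv)]
        rw [h4, Function.update_self]
        ring
      rw [h3]
      ring
    have hp := Ph_nonneg (fv S y u)
    have he := Real.exp_pos (-Pot S L b y)
    rw [h2, neg_add, Real.exp_add]
    show _ ≤ Real.exp (-Pot S L b y)
      - (1 - 578 / 613) * (if 1 / 4 < |fv S y u| then Real.exp (-Pot S L b y) else 0)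
    split_ifs with hc
    · have h5 := Ph_quarter _ hc
      have h6 : Real.exp (-((1 - b u) * Ph (fv S y u))) ≤ 578 / 613 := by
        refine le_trans (Real.exp_le_exp.2 ?_) num1
        nlinarith
      nlinarith
    · have h6 : Real.exp (-((1 - b u) * Ph (fv S y u))) ≤ 1 := by
        rw [Real.exp_le_one_iff]
        nlinarith
      nlinarith
  rw [integral_sub (Pot_int S L b hL) ((ite_int S L b hL u).const_mul _), integral_const_mul] at h1
  unfold Happy at hh
  push Not at hh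
  have hZ := ZZ_pos S L b hL
  have h7 : ∫ y : κ → ℝ, Real.exp (-Pot S L b y) = ZZ S L b := rfl
  rw [h7] at h1
  have h8 := num2
  nlinarith

theorem gg_comp (L L' y : ℝ) (hL' : 0 < L') (h : L' ≤ L) : gg L' y ≤ (L / L') ^ 2 * gg L y := by
  have hL : 0 < L := lt_of_lt_of_le hL' h
  unfold gg
  rw [← div_eq_mul_inv, ← div_pow, ← inv_pow]
  apply pow_le_pow_left₀ (by positivity)
  rw [inv_eq_one_div, div_div, div_le_div_iff₀ (by positivity) (by positivity)]
  have := mul_nonneg (sub_nonneg.2 h) (sq_nonneg y)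
  nlinarith

theorem ZZ_zero {ι κ : Type} [Fintype ι] [Fintype κ] (S : κ → Finset ι) (L : κ → ℝ)
    (hL : ∀ j, 0 < L j) :
    ZZ S L (fun _ => 0) = ∏ j, ((Real.sqrt (L j))⁻¹ * ∫ y, gg 1 y) := by
  rw [← base_integral L hL]
  unfold ZZ
  apply integral_congr_ae
  filter_upwards with y
  rw [Pot_exp S L _ hL]
  simp

theorem gg1_pos : 0 < ∫ y, gg 1 y := by
  have h1 : (∫ y, gg 1 y) = ∫ y : ℝ, Real.exp (Real.log (gg 1 y)) := by
    apply integral_congr_ae
    filter_upwards with y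
    rw [Real.exp_log (gg_pos 1 y one_pos)]
  rw [h1]
  apply integral_exp_pos
  refine gg_int1.congr ?_
  filter_upwards with y
  rw [Real.exp_log (gg_pos 1 y one_pos)]

theorem zc_ridge {ι κ : Type} [Fintype ι] [Fintype κ] (S : κ → Finset ι) (L : κ → ℝ)
    (b : ι → ℝ) (hL : ∀ j, 0 < L j) (L' : κ → ℝ) (hL' : ∀ j, 0 < L' j) (h : ∀ j, L' j ≤ L j) :
    Zn S L' b ≤ Real.exp (3 / 2 * ∑ j, Real.log (L j / L' j)) * Zn S L b := by
  set q : κ → ℝ := fun j => L j / L' j with hq
  have hq0 : ∀ j, 0 < q j := fun j => div_pos (hL j) (hL' j)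
  have h1 : ZZ S L' b ≤ (∏ j, q j ^ 2) * ZZ S L b := by
    unfold ZZ
    rw [← integral_const_mul]
    apply integral_mono (Pot_int S L' b hL') ((Pot_int S L b hL).const_mul _)
    intro y
    simp only
    rw [Pot_exp S L' b hL', Pot_exp S L b hL, ← mul_assoc, ← Finset.prod_mul_distrib]
    apply mul_le_mul_of_nonneg_right _ (Real.exp_pos _).le
    apply Finset.prod_le_prod
    · intro j _
      exact (gg_pos _ _ (hL' j)).le
    · intro j _
      exact gg_comp (L j) (L' j) (y j) (hL' j) (h j)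
  have h2 : ZZ S L' (fun _ => 0) = (∏ j, Real.sqrt (q j)) * ZZ S L (fun _ => 0) := by
    rw [ZZ_zero S L' hL', ZZ_zero S L hL, ← Finset.prod_mul_distrib]
    apply Finset.prod_congr rfl
    intro j _
    have h3 : Real.sqrt (q j) = Real.sqrt (L j) / Real.sqrt (L' j) := by
      simp only [hq]
      rw [Real.sqrt_div (hL j).le]
    rw [h3]
    have h4 : 0 < Real.sqrt (L j) := Real.sqrt_pos.2 (hL j)
    have h5 : 0 < Real.sqrt (L' j) := Real.sqrt_pos.2 (hL' j)
    field_simp
  have h3 : Real.exp (3 / 2 * ∑ j, Real.log (L j / L' j))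
      = (∏ j, q j ^ 2) / ∏ j, Real.sqrt (q j) := by
    rw [Finset.mul_sum, Real.exp_sum, ← Finset.prod_div_distrib]
    apply Finset.prod_congr rfl
    intro j _
    have h4 : 0 < Real.sqrt (q j) := Real.sqrt_pos.2 (hq0 j)
    have h5 : Real.log (L j / L' j) = 2 * Real.log (Real.sqrt (q j)) := by
      rw [Real.log_sqrt (hq0 j).le]
      ring
    have h6 : (3 / 2 * Real.log (L j / L' j)) = (3 : ℕ) * Real.log (Real.sqrt (q j)) := by
      rw [h5]
      push_cast
      ring
    rw [h6, Real.exp_nat_mul, Real.exp_log h4, eq_div_iff h4.ne']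
    have h7 : Real.sqrt (q j) ^ 2 = q j := Real.sq_sqrt (hq0 j).le
    calc Real.sqrt (q j) ^ 3 * Real.sqrt (q j) = (Real.sqrt (q j) ^ 2) ^ 2 := by ring
      _ = q j ^ 2 := by rw [h7]
  unfold Zn
  rw [h3, h2]
  have hZ0 := ZZ_pos S L (fun _ => 0) hL
  have hP : 0 < ∏ j, Real.sqrt (q j) := Finset.prod_pos (fun j _ => Real.sqrt_pos.2 (hq0 j))
  rw [div_mul_div_comm]
  exact div_le_div_of_nonneg_right h1 (by positivity)

theorem st_zcost : ST_ZCOST := by
  intro ι κ _ _ S L b hL
  refine ⟨fun b' hb => ⟨zc_mono S L b b' hL hb, zc_up S L b b' hL hb⟩,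
    fun u hu hh => zc_gain S L b hL u hu hh, fun L' hL' h => zc_ridge S L b hL L' hL' h⟩

end

end Pool.Agent.Helper60.NF
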